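import Pool.Agent.Lib_helper92.O3.B.Cb

/-!
# Critical graphs with few edges: definitions for the potential method

`K` is the number of colours, `S` the vertex set of a critical graph inside a graph on a type,
`β` the claimed bound for `(K + 1) n - 2 e` as a function of `n - 1`.
-/

set_option autoImplicit false
set_option linter.unusedSectionVars false

open scoped Classical
open Finset
open Pool.Agent.O2 (PC Cb CrOn pr ms dg nd addE reN)
open Pool.Agent.O3 (con hit Clq)

namespace Pool.Agent.OW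

variable {V : Type}

/-- `(K + 1) |X| - 2 e(X)` -/
noncomputable def df (G : SimpleGraph V) (K : ℕ) (X : Finset V) : ℤ :=
  ((K : ℤ) + 1) * X.card - pr G X X

/-- the excess of `df` over the bound -/
noncomputable def Yy (G : SimpleGraph V) (K : ℕ) (β : ℕ → ℤ) (X : Finset V) : ℤ :=
  df G K X - β (X.card - 1)

/-- the claim for all critical graphs with fewer than `n` vertices -/
def IH (K : ℕ) (β : ℕ → ℤ) (n : ℕ) : Prop :=
  ∀ (V : Type) (G : SimpleGraph V) (S : Finset V), CrOn G S K → S.card < n →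
    df G K S ≤ β (S.card - 1)

/-- any `i` edges can be added to a proper subset -/
def AE (G : SimpleGraph V) (S : Finset V) (K i : ℕ) : Prop :=
  ∀ R ⊆ S, R ≠ S → ∀ F : Finset (V × V), F.card ≤ i → Cb (addE G F) R K

/-- `a` and `b` are adjacent twins in `S` -/
def Tw (G : SimpleGraph V) (S : Finset V) (a b : V) : Prop :=
  G.Adj a b ∧ ∀ c ∈ S, c ≠ a → c ≠ b → (G.Adj a c ↔ G.Adj b c)

/-- the number of ordered pairs of adjacent twins in `S` -/
noncomputable def tw (G : SimpleGraph V) (S : Finset V) : ℕ :=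
  ((S ×ˢ S).filter fun p => p.1 ≠ p.2 ∧ Tw G S p.1 p.2).card

/-- a critical graph on `n` vertices that violates the claim -/
def Vio (K : ℕ) (β : ℕ → ℤ) (n : ℕ) {V : Type} (G : SimpleGraph V) (S : Finset V) : Prop :=
  CrOn G S K ∧ S.card = n ∧ β (n - 1) + 2 ≤ df G K S

/-- a minimal counterexample: first the number of vertices is minimal, then the number of edges,
then the number of pairs of twins is maximal -/
structure Cex (G : SimpleGraph V) (S : Finset V) (K : ℕ) (β : ℕ → ℤ) : Prop where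
  cr : CrOn G S K
  ih : IH K β S.card
  big : β (S.card - 1) + 2 ≤ df G K S
  minE : ∀ (V' : Type) (G' : SimpleGraph V') (S' : Finset V'), Vio K β S.card G' S' →
    pr G S S ≤ pr G' S' S'
  maxT : ∀ (V' : Type) (G' : SimpleGraph V') (S' : Finset V'), Vio K β S.card G' S' →
    pr G' S' S' = pr G S S → tw G' S' ≤ tw G S

/-- the vertex `b` is merged into `a` (used on sets that do not contain `b`) -/
def mg (G : SimpleGraph V) (a b : V) : SimpleGraph V where
  Adj x y := x ≠ y ∧ (G.Adj x y ∨ (x = a ∧ G.Adj b y) ∨ (y = a ∧ G.Adj b x))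
  symm := ⟨by
    rintro x y ⟨h0, h | ⟨h1, h2⟩ | ⟨h1, h2⟩⟩
    · exact ⟨h0.symm, Or.inl h.symm⟩
    · exact ⟨h0.symm, Or.inr (Or.inr ⟨h1, h2⟩)⟩
    · exact ⟨h0.symm, Or.inr (Or.inl ⟨h1, h2⟩)⟩⟩
  loopless := ⟨by
    rintro x ⟨h, -⟩
    exact h rfl⟩

/-- `W` is a pair set of the non-adjacent vertices `x, y`: merging `x` and `y` in `W` gives a
critical graph -/
structure Pair (G : SimpleGraph V) (S : Finset V) (K : ℕ) (x y : V) (W : Finset V) : Prop where
  sub : W ⊆ S
  hx : x ∈ W
  hy : y ∈ W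
  ne : x ≠ y
  nad : ¬ G.Adj x y
  cr : CrOn (mg G x y) (W.erase y) K

/-- the table of residues -/
def vt (K p : ℕ) : ℤ :=
  if p = 0 then (K : ℤ) - 1
  else if p = 1 ∨ p + 1 = K then 2
  else if K % 2 = 1 then (if p + 2 = K then 2 else 0)
  else if p % 2 = 1 then 0
  else if p + 4 = K then -1
  else 1

/-- the bound of the theorem: `m = n - 1` -/
def bt (K m : ℕ) : ℤ := 2 * ((m / K : ℕ) : ℤ) + vt K (m % K)

theorem vt_zero (K : ℕ) : vt K 0 = (K : ℤ) - 1 := by simp [vt]

/-- existence of a minimal counterexample -/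
theorem exists_cex {K : ℕ} {β : ℕ → ℤ}
    (hpar : ∀ m : ℕ, (2 : ℤ) ∣ ((K : ℤ) + 1) * (m + 1) - β m)
    (hbad : ¬ ∀ (V : Type) (G : SimpleGraph V) (S : Finset V), CrOn G S K →
      df G K S ≤ β (S.card - 1)) :
    ∃ (V : Type) (G : SimpleGraph V) (S : Finset V), Cex G S K β := by
  -- the violating graphs
  have hv : ∃ n, ∃ (V : Type) (G : SimpleGraph V) (S : Finset V), Vio K β n G S := by
    by_contra hno
    apply hbad
    intro V G S hS
    by_contra hlt
    refine hno ⟨S.card, V, G, S, hS, rfl, ?_⟩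
    have hpos : 0 < S.card := card_pos.2 hS.nonempty
    obtain ⟨z, hz⟩ := hpar (S.card - 1)
    have hev : ∃ t : ℤ, (pr G S S : ℤ) = 2 * t := by
      have h1 := Pool.Agent.O2.pr_add_ms G S
      have h2 := Pool.Agent.O3.two_eb G S
      rcases Nat.even_or_odd (pr G S S) with ⟨t, ht⟩ | ⟨t, ht⟩
      · exact ⟨t, by rw [ht]; push_cast; ring⟩
      · exfalso
        have h3 : (S.card * S.card) % 2 = S.card % 2 := by
          rcases Nat.mod_two_eq_zero_or_one S.card with h | h <;> simp [Nat.mul_mod, h]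
        omega
    obtain ⟨t, ht⟩ := hev
    have hc : (((S.card - 1 : ℕ) : ℤ) + 1) = S.card := by omega
    rw [hc] at hz
    unfold df at hlt ⊢
    omega
  classical
  let n := Nat.find hv
  obtain ⟨V0, G0, S0, h0⟩ := Nat.find_spec hv
  have hmin : ∀ m, m < n → ∀ (V : Type) (G : SimpleGraph V) (S : Finset V), ¬ Vio K β m G S :=
    fun m hm V G S h => Nat.find_min hv hm ⟨V, G, S, h⟩
  -- minimal number of edges
  have he : ∃ e, ∃ (V : Type) (G : SimpleGraph V) (S : Finset V), Vio K β n G S ∧ pr G S S = e :=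
    ⟨_, V0, G0, S0, h0, rfl⟩
  let e := Nat.find he
  obtain ⟨V1, G1, S1, h1, h1e⟩ := Nat.find_spec he
  have hemin : ∀ (V : Type) (G : SimpleGraph V) (S : Finset V), Vio K β n G S → e ≤ pr G S S :=
    fun V G S h => Nat.find_min' he ⟨V, G, S, h, rfl⟩
  -- maximal number of twins
  have htb : ∀ (V : Type) (G : SimpleGraph V) (S : Finset V), Vio K β n G S → tw G S ≤ n * n := by
    intro V G S h
    have h2 : tw G S ≤ (S ×ˢ S).card := card_filter_le _ _
    rw [card_product, h.2.1] at h2
    exact h2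
  have ht : ∃ t, ∃ (V : Type) (G : SimpleGraph V) (S : Finset V), Vio K β n G S ∧
      pr G S S = e ∧ n * n - tw G S = t := ⟨_, V1, G1, S1, h1, h1e, rfl⟩
  obtain ⟨V, G, S, h, hpr, htt⟩ := Nat.find_spec ht
  have htmin : ∀ (V' : Type) (G' : SimpleGraph V') (S' : Finset V'), Vio K β n G' S' →
      pr G' S' S' = e → n * n - tw G S ≤ n * n - tw G' S' := by
    intro V' G' S' h' he'
    rw [htt]
    exact Nat.find_min' ht ⟨V', G', S', h', he', rfl⟩
  have hcard : S.card = n := h.2.1
  refine ⟨V, G, S, h.1, ?_, ?_, ?_, ?_⟩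
  · intro V' G' S' h' hlt
    rw [hcard] at hlt
    by_contra hcon
    have hno := hmin _ hlt V' G' S'
    apply hno
    refine ⟨h', rfl, ?_⟩
    have hpos : 0 < S'.card := card_pos.2 h'.nonempty
    obtain ⟨z, hz⟩ := hpar (S'.card - 1)
    have hev : ∃ t : ℤ, (pr G' S' S' : ℤ) = 2 * t := by
      have h1 := Pool.Agent.O2.pr_add_ms G' S'
      have h2 := Pool.Agent.O3.two_eb G' S'
      rcases Nat.even_or_odd (pr G' S' S') with ⟨t, ht⟩ | ⟨t, ht⟩
      · exact ⟨t, by rw [ht]; push_cast; ring⟩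
      · exfalso
        have h3 : (S'.card * S'.card) % 2 = S'.card % 2 := by
          rcases Nat.mod_two_eq_zero_or_one S'.card with h | h <;> simp [Nat.mul_mod, h]
        omega
    obtain ⟨t, ht⟩ := hev
    have hc : (((S'.card - 1 : ℕ) : ℤ) + 1) = S'.card := by omega
    rw [hc] at hz
    unfold df at hcon ⊢
    omega
  · rw [hcard]
    exact h.2.2
  · intro V' G' S' h'
    rw [hcard] at h'
    rw [hpr]
    exact hemin V' G' S' h'
  · intro V' G' S' h' he'
    rw [hcard] at h'
    rw [hpr] at he'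
    have h3 := htmin V' G' S' h' he'
    have h4 := htb V' G' S' h'
    have h5 := htb V G S h
    omega

end Pool.Agent.OW
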