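import Pool.Agent.Lib_helper46.O2.M5a

/-! The clone graph is not colourable. -/

set_option autoImplicit false
set_option linter.unusedSectionVars false
set_option linter.unusedVariables false

open scoped Classical
open Finset
open Pool.Agent.O2 (PC Cb CrOn pr ms dg nd reN)

namespace Pool.Agent.OW

variable {V : Type}

/-- `v` is replaced by a clone of `x` (in `S`) -/
noncomputable def clo (G : SimpleGraph V) (S : Finset V) (v x : V) : SimpleGraph V :=
  reN G v (insert x ((S.filter fun y => G.Adj x y).erase v))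

theorem clo_adj {G : SimpleGraph V} {S : Finset V} {v x a b : V} (ha : a ≠ v) (hb : b ≠ v) :
    (clo G S v x).Adj a b ↔ G.Adj a b := by
  unfold clo reN
  constructor
  · rintro (⟨-, -, h⟩ | ⟨-, ⟨h, -⟩ | ⟨h, -⟩⟩)
    · exact h
    · exact absurd h ha
    · exact absurd h hb
  · intro h
    exact Or.inl ⟨ha, hb, h⟩

theorem clo_adj_v {G : SimpleGraph V} {S : Finset V} {v x b : V} (hb : b ≠ v) :
    (clo G S v x).Adj v b ↔ b = x ∨ (b ∈ S ∧ G.Adj x b) := by
  unfold clo reN
  constructor
  · rintro (⟨h, -, -⟩ | ⟨-, ⟨-, h⟩ | ⟨h, -⟩⟩)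
    · exact absurd rfl h
    · rcases mem_insert.1 h with h | h
      · exact Or.inl h
      · have := mem_filter.1 (mem_of_mem_erase h)
        exact Or.inr ⟨this.1, this.2⟩
    · exact absurd h hb
  · intro h
    refine Or.inr ⟨hb.symm, Or.inl ⟨rfl, ?_⟩⟩
    rcases h with h | h
    · exact mem_insert.2 (Or.inl h)
    · exact mem_insert.2 (Or.inr (mem_erase.2 ⟨hb, mem_filter.2 ⟨h.1, h.2⟩⟩))

/-- If all vertices of `C` are twins of `x`, `v` is adjacent to all of them and has at most
`K - 1` other neighbours, then the clone graph is not colourable. -/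
theorem clo_not_cb {K : ℕ} {G : SimpleGraph V} {S C : Finset V} {v x : V} (hn : ¬ Cb G S K)
    (hC : C ⊆ S) (hx : x ∈ C) (hv : v ∈ S) (hvC : v ∉ C)
    (htw : ∀ c ∈ C, ∀ a ∈ S, a ≠ c → (G.Adj c a ↔ a = x ∨ G.Adj x a))
    (hvc : ∀ c ∈ C, G.Adj v c) (hd : dg G (S \ C) v + 1 ≤ K) : ¬ Cb (clo G S v x) S K := by
  intro hcb
  have hK : 0 < K := by omega
  obtain ⟨ψ, hψ⟩ := (Pool.Agent.O2.cb_fin hK).1 hcb
  have hxS := hC hx
  -- a colour which is not on the neighbours of `v` outside `C`
  obtain ⟨α, hα⟩ : ∃ α : Fin K, ∀ a ∈ S \ C, G.Adj v a → ψ a ≠ α := by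
    by_contra hcon
    push Not at hcon
    have h1 : (univ : Finset (Fin K)) ⊆ ((S \ C).filter fun a => G.Adj v a).image ψ := by
      intro α _
      obtain ⟨a, ha, hva, he⟩ := hcon α
      exact mem_image.2 ⟨a, mem_filter.2 ⟨ha, hva⟩, he⟩
    have h2 := card_le_card h1
    rw [card_univ, Fintype.card_fin] at h2
    have h3 := h2.trans card_image_le
    unfold dg at hd
    omega
  have hne : ∀ a ∈ S, a ≠ v → (clo G S v x).Adj v a → ψ v ≠ ψ a := fun a ha _ h =>
    hψ v hv a ha h
  have hcv : ∀ c ∈ C, c ≠ v := fun c hc e => hvC (e ▸ hc)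
  have hcx : ∀ c ∈ C, c ≠ x → G.Adj x c := by
    intro c hc hne
    have := (htw c hc x hxS hne.symm).2 (Or.inl rfl)
    exact this.symm
  have hvc' : ∀ c ∈ C, ψ v ≠ ψ c := by
    intro c hc
    refine hne c (hC hc) (hcv c hc) ((clo_adj_v (hcv c hc)).2 ?_)
    by_cases h : c = x
    · exact Or.inl h
    · exact Or.inr ⟨hC hc, hcx c hc h⟩
  refine hn (Pool.Agent.O2.cb_of_pc (φ := fun a => if a = v then α else
    if a ∈ C ∧ ψ a = α then ψ v else ψ a) ?_)
  -- the main case distinction is symmetric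
  have key : ∀ a ∈ S, ∀ b ∈ S, G.Adj a b → b ≠ v →
      (a = v ∨ ¬ (b ∈ C ∧ ψ b = α)) →
      (if a = v then α else if a ∈ C ∧ ψ a = α then ψ v else ψ a) ≠
        (if b = v then α else if b ∈ C ∧ ψ b = α then ψ v else ψ b) := by
    intro a ha b hb hab hbv hor
    rw [if_neg hbv]
    by_cases hav : a = v
    · subst hav
      rw [if_pos rfl]
      by_cases hbC : b ∈ C
      · by_cases hbα : ψ b = α
        · rw [if_pos ⟨hbC, hbα⟩]
          rw [← hbα]
          exact (hvc' b hbC).symm
        · rw [if_neg (fun h => hbα h.2)]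
          exact fun h => hbα h.symm
      · rw [if_neg (fun h => hbC h.1)]
        exact fun h => hα b (mem_sdiff.2 ⟨hb, hbC⟩) hab h.symm
    · rw [if_neg hav]
      have hbn := hor.resolve_left hav
      rw [if_neg hbn]
      by_cases haC : a ∈ C ∧ ψ a = α
      · rw [if_pos haC]
        refine hne b hb hbv ((clo_adj_v hbv).2 ?_)
        rcases (htw a haC.1 b hb hab.ne').1 hab with h | h
        · exact Or.inl h
        · exact Or.inr ⟨hb, h⟩
      · rw [if_neg haC]
        exact hψ a ha b hb ((clo_adj hav hbv).2 hab)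
  intro a ha b hb hab
  by_cases hbv : b = v
  · by_cases hav : a = v
    · exact absurd (hav.trans hbv.symm) hab.ne
    · exact (key b hb a ha hab.symm hav (Or.inl hbv)).symm
  · by_cases hav : a = v
    · exact key a ha b hb hab hbv (Or.inl hav)
    · by_cases hbC : b ∈ C ∧ ψ b = α
      · by_cases haC : a ∈ C ∧ ψ a = α
        · exfalso
          have := hψ a ha b hb ((clo_adj hav hbv).2 hab)
          exact this (haC.2.trans hbC.2.symm)
        · exact (key b hb a ha hab.symm hav (Or.inr haC)).symm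
      · exact key a ha b hb hab hbv (Or.inr hbC)

end Pool.Agent.OW
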