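import Pool.Agent.Lib_helper92.OW.Defs
import Pool.Agent.Lib_helper92.OW.Cl

/-! Clone sets in a minimal counterexample. -/

set_option autoImplicit false
set_option linter.unusedSectionVars false
set_option linter.unusedVariables false

open scoped Classical
open Finset
open Pool.Agent.O2 (PC Cb CrOn pr ms dg nd reN pr_sum pr_symm pr_union_left pr_union_right dg_mono
  dg_union)
open Pool.Agent.O3 (con hit Clq)

namespace Pool.Agent.OW

variable {V : Type}

/-- the new neighbourhood of `v` in the clone graph -/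
noncomputable def cn (G : SimpleGraph V) (S : Finset V) (v x : V) : Finset V :=
  insert x ((S.filter fun y => G.Adj x y).erase v)

theorem clo_adj_v' {G : SimpleGraph V} {S : Finset V} {v x b : V} (hb : b ≠ v) :
    (clo G S v x).Adj v b ↔ b ∈ cn G S v x :=
  Pool.Agent.O2.M5a_adj_y hb

theorem pr_erase {G : SimpleGraph V} {R : Finset V} {v : V} (hv : v ∉ R) :
    pr G (insert v R) (insert v R) = pr G R R + 2 * dg G R v := by
  have h1 : insert v R = R ∪ {v} := by rw [union_comm]; rfl
  have hd : Disjoint R {v} := disjoint_singleton_right.2 hv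
  have h4 : pr G R {v} = dg G R v := by
    rw [pr_symm, pr_sum, sum_singleton]
  have h5 : pr G {v} R = dg G R v := by
    rw [pr_sum, sum_singleton]
  have h6 : pr G {v} {v} = 0 := by
    rw [pr_sum, sum_singleton]
    unfold dg
    rw [card_eq_zero, filter_eq_empty_iff]
    intro b hb
    rw [mem_singleton] at hb
    rw [hb]
    exact G.irrefl
  rw [h1, pr_union_left _ hd, pr_union_right _ hd, pr_union_right _ hd, h4, h5, h6]
  omega

theorem clo_pr {G : SimpleGraph V} {S R : Finset V} {v x : V} (hv : v ∉ R) :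
    pr (clo G S v x) R R = pr G R R := by
  unfold pr
  congr 1
  refine filter_congr fun p hp => ?_
  have hp' := mem_product.1 hp
  exact clo_adj (fun e => hv (e ▸ hp'.1)) (fun e => hv (e ▸ hp'.2))

theorem clo_dg {G : SimpleGraph V} {S R : Finset V} {v x : V} (hv : v ∉ R) :
    dg (clo G S v x) R v = (R ∩ cn G S v x).card := by
  unfold dg
  congr 1
  ext b
  rw [mem_filter, mem_inter]
  constructor
  · rintro ⟨h1, h2⟩
    exact ⟨h1, (clo_adj_v' (ne_of_mem_of_not_mem h1 hv)).1 h2⟩
  · rintro ⟨h1, h2⟩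
    exact ⟨h1, (clo_adj_v' (ne_of_mem_of_not_mem h1 hv)).2 h2⟩

theorem cn_sub {G : SimpleGraph V} {S : Finset V} {v x : V} (hx : x ∈ S) (hne : x ≠ v) :
    cn G S v x ⊆ S.erase v := by
  intro a ha
  rcases mem_insert.1 ha with h | h
  · subst h; exact mem_erase.2 ⟨hne, hx⟩
  · exact mem_erase.2 ⟨(mem_erase.1 h).1, (mem_filter.1 (mem_of_mem_erase h)).1⟩

theorem cn_card {G : SimpleGraph V} {S : Finset V} {v x : V} (hv : v ∈ S) (h : G.Adj x v) :
    (cn G S v x).card = dg G S x := by
  unfold cn
  rw [card_insert_of_notMem, card_erase_of_mem (mem_filter.2 ⟨hv, h⟩)]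
  · have h1 : 0 < (S.filter fun y => G.Adj x y).card := card_pos.2 ⟨v, mem_filter.2 ⟨hv, h⟩⟩
    have h2 : (S.filter fun y => G.Adj x y).card - 1 + 1 =
        (S.filter fun y => G.Adj x y).card := by omega
    exact h2
  · intro h'
    exact G.irrefl (mem_filter.1 (mem_of_mem_erase h')).2

/-- the vertices of `S` which are adjacent twins of `v` -/
noncomputable def tws (G : SimpleGraph V) (S : Finset V) (v : V) : Finset V :=
  S.filter fun c => c ≠ v ∧ Tw G S v c

theorem Tw.symm {G : SimpleGraph V} {S : Finset V} {a b : V} (h : Tw G S a b) : Tw G S b a :=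
  ⟨h.1.symm, fun c hc h1 h2 => (h.2 c hc h2 h1).symm⟩

theorem clo_tw_old {G : SimpleGraph V} {S : Finset V} {v x a b : V} (hx : x ∈ S) (hv : v ∈ S)
    (hxv : x ≠ v) (ha : a ∈ S) (hb : b ∈ S) (hav : a ≠ v) (hbv : b ≠ v)
    (h : Tw G S a b) : Tw (clo G S v x) S a b := by
  refine ⟨(clo_adj hav hbv).2 h.1, fun c hc hca hcb => ?_⟩
  by_cases hcv : c = v
  · subst hcv
    rw [SimpleGraph.adj_comm, SimpleGraph.adj_comm _ b, clo_adj_v hav, clo_adj_v hbv]
    have key : ∀ {a b : V}, a ∈ S → b ∈ S → Tw G S a b → (a = x ∨ (a ∈ S ∧ G.Adj x a)) →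
        (b = x ∨ (b ∈ S ∧ G.Adj x b)) := by
      intro a b ha hb h h'
      by_cases hbx : b = x
      · exact Or.inl hbx
      · refine Or.inr ⟨hb, ?_⟩
        rcases h' with h' | ⟨-, h'⟩
        · subst h'; exact h.1
        · by_cases hax : a = x
          · subst hax; exact h.1
          · exact ((h.2 x hx (Ne.symm hax) (Ne.symm hbx)).1 h'.symm).symm
    exact ⟨key ha hb h, key hb ha h.symm⟩
  · rw [clo_adj hav hcv, clo_adj hbv hcv]
    exact h.2 c hc hca hcb

theorem clo_tw_new {G : SimpleGraph V} {S : Finset V} {v x c : V} (hx : x ∈ S) (hv : v ∈ S)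
    (hc : c ∈ S) (hcv : c ≠ v) (hxv : x ≠ v) (h : c = x ∨ Tw G S x c) :
    Tw (clo G S v x) S v c := by
  refine ⟨(clo_adj_v hcv).2 (h.imp id fun h => ⟨hc, h.1⟩), fun d hd hdv hdc => ?_⟩
  rw [clo_adj_v hdv, clo_adj hcv hdv]
  rcases h with h | h
  · subst h
    constructor
    · rintro (h | h)
      · exact absurd h hdc
      · exact h.2
    · exact fun h => Or.inr ⟨hd, h⟩
  · by_cases hdx : d = x
    · subst hdx
      exact ⟨fun _ => h.1.symm, fun _ => Or.inl rfl⟩
    · have := h.2 d hd hdx hdc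
      constructor
      · rintro (h' | h')
        · exact absurd h' hdx
        · exact this.1 h'.2
      · exact fun h' => Or.inr ⟨hd, this.2 h'⟩

/-- the number of twin pairs does not decrease by more than `2 |tws v| - 2 |C|` -/
theorem clo_tw {G : SimpleGraph V} {S C : Finset V} {v x : V} (hC : C ⊆ S) (hx : x ∈ C)
    (hv : v ∈ S) (hvC : v ∉ C) (htw : ∀ c ∈ C, c ≠ x → Tw G S x c) :
    tw G S + 2 * C.card ≤ tw (clo G S v x) S + 2 * (tws G S v).card := by
  have hxv : x ≠ v := fun e => hvC (e ▸ hx)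
  -- the pairs of G
  have h1 : ((S ×ˢ S).filter fun p => p.1 ≠ p.2 ∧ Tw G S p.1 p.2) ⊆
      (((S ×ˢ S).filter fun p => p.1 ≠ p.2 ∧ Tw G S p.1 p.2).filter
        fun p => p.1 ≠ v ∧ p.2 ≠ v) ∪
      ((tws G S v).image (fun c => (v, c)) ∪ (tws G S v).image (fun c => (c, v))) := by
    intro p hp
    obtain ⟨hp1, hp2, hp3⟩ := mem_filter.1 hp
    obtain ⟨hp4, hp5⟩ := mem_product.1 hp1
    by_cases h1 : p.1 = v
    · refine mem_union_right _ (mem_union_left _ (mem_image.2 ⟨p.2, mem_filter.2 ⟨hp5, ?_, ?_⟩, ?_⟩))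
      · rw [← h1]; exact hp2.symm
      · rw [← h1]; exact hp3
      · rw [← h1]
    · by_cases h2 : p.2 = v
      · refine mem_union_right _ (mem_union_right _
          (mem_image.2 ⟨p.1, mem_filter.2 ⟨hp4, ?_, ?_⟩, ?_⟩))
        · rw [← h2]; exact hp2
        · rw [← h2]; exact hp3.symm
        · rw [← h2]
      · exact mem_union_left _ (mem_filter.2 ⟨hp, h1, h2⟩)
  have h2 : (((S ×ˢ S).filter fun p => p.1 ≠ p.2 ∧ Tw G S p.1 p.2).filter
        fun p => p.1 ≠ v ∧ p.2 ≠ v) ∪
      (C.image (fun c => (v, c)) ∪ C.image (fun c => (c, v))) ⊆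
      ((S ×ˢ S).filter fun p => p.1 ≠ p.2 ∧ Tw (clo G S v x) S p.1 p.2) := by
    intro p hp
    rcases mem_union.1 hp with hp | hp
    · obtain ⟨hp1, hp2, hp3⟩ := mem_filter.1 hp
      obtain ⟨hp4, hp5, hp6⟩ := mem_filter.1 hp1
      obtain ⟨hp7, hp8⟩ := mem_product.1 hp4
      exact mem_filter.2 ⟨hp4, hp5, clo_tw_old (hC hx) hv hxv hp7 hp8 hp2 hp3 hp6⟩
    · have hnew : ∀ c ∈ C, Tw (clo G S v x) S v c := fun c hc =>
        clo_tw_new (hC hx) hv (hC hc) (fun e => hvC (e ▸ hc)) hxv
          ((em (c = x)).imp id fun h => htw c hc h)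
      rcases mem_union.1 hp with hp | hp
      · obtain ⟨c, hc, rfl⟩ := mem_image.1 hp
        exact mem_filter.2 ⟨mem_product.2 ⟨hv, hC hc⟩, (ne_of_mem_of_not_mem hc hvC).symm, hnew c hc⟩
      · obtain ⟨c, hc, rfl⟩ := mem_image.1 hp
        exact mem_filter.2 ⟨mem_product.2 ⟨hC hc, hv⟩, ne_of_mem_of_not_mem hc hvC,
          (hnew c hc).symm⟩
  have hd1 : Disjoint (((S ×ˢ S).filter fun p => p.1 ≠ p.2 ∧ Tw G S p.1 p.2).filter
        fun p => p.1 ≠ v ∧ p.2 ≠ v)
      (C.image (fun c => (v, c)) ∪ C.image (fun c => (c, v))) := by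
    rw [disjoint_left]
    intro p hp hp'
    obtain ⟨-, hp2, hp3⟩ := mem_filter.1 hp
    rcases mem_union.1 hp' with hp' | hp'
    · obtain ⟨c, hc, rfl⟩ := mem_image.1 hp'
      exact hp2 rfl
    · obtain ⟨c, hc, rfl⟩ := mem_image.1 hp'
      exact hp3 rfl
  have hd2 : Disjoint (C.image (fun c => (v, c))) (C.image (fun c => (c, v))) := by
    rw [disjoint_left]
    intro p hp hp'
    obtain ⟨c, hc, rfl⟩ := mem_image.1 hp
    obtain ⟨d, hd, he⟩ := mem_image.1 hp'
    have : d = v := congrArg Prod.fst he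
    exact hvC (this ▸ hd)
  have e1 : (C.image (fun c => (v, c))).card = C.card :=
    card_image_of_injective _ fun a b h => (Prod.mk.inj h).2
  have e2 : (C.image (fun c => (c, v))).card = C.card :=
    card_image_of_injective _ fun a b h => (Prod.mk.inj h).1
  have e3 : ((tws G S v).image (fun c => (v, c))).card ≤ (tws G S v).card := card_image_le
  have e4 : ((tws G S v).image (fun c => (c, v))).card ≤ (tws G S v).card := card_image_le
  have h3 := card_le_card h1
  have h4 := card_le_card h2
  rw [card_union_of_disjoint hd1, card_union_of_disjoint hd2, e1, e2] at h4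
  have h5 := card_union_le (((S ×ˢ S).filter fun p => p.1 ≠ p.2 ∧ Tw G S p.1 p.2).filter
        fun p => p.1 ≠ v ∧ p.2 ≠ v)
      ((tws G S v).image (fun c => (v, c)) ∪ (tws G S v).image (fun c => (c, v)))
  have h6 := card_union_le ((tws G S v).image (fun c => (v, c)))
    ((tws G S v).image (fun c => (c, v)))
  unfold tw
  omega

/-- CLONE SETS: `C` consists of twins of the low vertex `x`, `v` is a neighbour outside `C` of
degree at most `K - 1 + |C|`; if `v` is low then it has at most `|C| - 1` twins. Then `N[x] - v` is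
a clique or there is a critical set in the clone graph, which contains `v` and the `K` neighbours
of the clone. -/
theorem clone_set {K : ℕ} {β : ℕ → ℤ} {G : SimpleGraph V} {S C : Finset V} {v x : V}
    (h : Cex G S K β) (hK : 1 ≤ K) (hC : C ⊆ S) (hx : x ∈ C) (hlow : dg G S x = K)
    (htw : ∀ c ∈ C, c ≠ x → Tw G S x c) (hv : v ∈ S) (hvC : v ∉ C) (hxv : G.Adj x v)
    (hd : dg G S v + 1 ≤ K + C.card)
    (hord : dg G S v = K → (tws G S v).card < C.card) :
    Clq G (cn G S v x) ∨ ∃ R ⊆ S.erase v, cn G S v x ⊆ R ∧ K + 1 ≤ R.card ∧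
      R.card + 1 < S.card ∧ CrOn (clo G S v x) (insert v R) K ∧
      df (clo G S v x) K (insert v R) = df G K R - (K - 1) ∧
      df G K R ≤ β R.card + K - 1 := by
  have hxS := hC hx
  have hne : x ≠ v := hxv.ne
  have hvc : ∀ c ∈ C, G.Adj v c := by
    intro c hc
    by_cases hcx : c = x
    · subst hcx; exact hxv.symm
    · exact (((htw c hc hcx).2 v hv hne.symm (fun e => hvC (e ▸ hc))).1 hxv).symm
  have hcard : dg G (S \ C) v + C.card = dg G S v := by
    have h1 := dg_union (G := G) (X := S \ C) (Y := C) sdiff_disjoint v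
    rw [sdiff_union_of_subset hC] at h1
    have h2 : dg G C v = C.card := by
      unfold dg
      rw [filter_true_of_mem hvc]
    omega
  have hCpos : 0 < C.card := card_pos.2 ⟨x, hx⟩
  have hdv : K ≤ dg G S v := h.cr.dg_ge hv
  have hncb : ¬ Cb (clo G S v x) S K := by
    refine clo_not_cb h.cr.1 hC hx hv hvC ?_ hvc (by omega)
    intro c hc a ha hac
    by_cases hcx : c = x
    · subst hcx
      exact ⟨fun h => Or.inr h, fun h => h.resolve_left hac⟩
    · have htc := htw c hc hcx
      by_cases hax : a = x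
      · subst hax
        exact ⟨fun _ => Or.inl rfl, fun _ => htc.1.symm⟩
      · rw [← htc.2 a ha hax hac]
        exact ⟨fun h => Or.inr h, fun h => h.resolve_left hax⟩
  obtain ⟨T, hTS, hT⟩ := Pool.Agent.O2.exists_crOn hncb
  have hvT : v ∈ T := by
    by_contra hvT
    apply hT.1
    have h1 : T ≠ S := fun e => hvT (e ▸ hv)
    obtain ⟨φ, h2, h3⟩ := h.cr.sub hTS h1
    refine ⟨φ, h2, fun a ha b hb hab => h3 a ha b hb ?_⟩
    exact (clo_adj (ne_of_mem_of_not_mem ha hvT) (ne_of_mem_of_not_mem hb hvT)).1 hab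
  have hR : insert v (T.erase v) = T := insert_erase hvT
  have hvR : v ∉ T.erase v := notMem_erase v T
  have hcnc : (cn G S v x).card = K := (cn_card hv hxv).trans hlow
  have hdgT : K ≤ dg (clo G S v x) T v := hT.dg_ge hvT
  have hdgR : dg (clo G S v x) (T.erase v) v = dg (clo G S v x) T v :=
    Pool.Agent.O2.dg_erase_self _ _ _
  have hsub : cn G S v x ⊆ T.erase v := by
    have h1 := clo_dg (G := G) (S := S) (x := x) hvR
    rw [hdgR] at h1
    have h2 : (cn G S v x).card ≤ (T.erase v ∩ cn G S v x).card := by omega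
    have h3 := eq_of_subset_of_card_le inter_subset_right h2
    intro a ha
    rw [← h3] at ha
    exact (mem_inter.1 ha).1
  have hdgK : dg (clo G S v x) (T.erase v) v = K := by
    rw [clo_dg hvR, inter_eq_right.2 hsub, hcnc]
  have hprT : pr (clo G S v x) T T = pr G (T.erase v) (T.erase v) + 2 * K := by
    have := pr_erase (G := clo G S v x) hvR
    rw [hR, clo_pr hvR, hdgK] at this
    exact this
  have hcT : T.card = (T.erase v).card + 1 := by
    rw [card_erase_of_mem hvT]
    have := card_pos.2 ⟨v, hvT⟩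
    omega
  have hdf : df (clo G S v x) K T = df G K (T.erase v) - (K - 1) := by
    unfold df
    rw [hprT, hcT]
    push_cast
    ring
  have hTlt : T.card < S.card := by
    refine lt_of_le_of_ne (card_le_card hTS) fun he => ?_
    have hTe : T = S := eq_of_subset_of_card_le hTS he.ge
    subst hTe
    have hprS : pr G T T = pr G (T.erase v) (T.erase v) + 2 * dg G T v := by
      have := pr_erase (G := G) hvR
      rw [hR, Pool.Agent.O2.dg_erase_self] at this
      exact this
    have hvio : Vio K β T.card (clo G T v x) T := by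
      refine ⟨hT, rfl, ?_⟩
      have h1 := h.big
      unfold df at h1 ⊢
      rw [hprT]
      rw [hprS] at h1
      push_cast at h1 ⊢
      have : (K : ℤ) ≤ dg G T v := by exact_mod_cast hdv
      linarith
    have h1 := h.minE _ _ _ hvio
    rw [hprT, hprS] at h1
    have h2 : dg G T v = K := by omega
    have h3 := h.maxT _ _ _ hvio (by rw [hprT, hprS, h2])
    have h4 := clo_tw (G := G) hC hx hv hvC htw
    have h5 := hord h2
    omega
  have hTge : K + 1 ≤ T.card := hT.card_ge
  rcases Nat.eq_or_lt_of_le hTge with he | hlt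
  · left
    -- `T` has `K + 1` vertices, so it is a clique
    have h1 : (T.erase v).card = (cn G S v x).card := by omega
    have h2 : cn G S v x = T.erase v := eq_of_subset_of_card_le hsub h1.le
    rw [h2]
    intro a ha b hb hab
    have h3 : K ≤ dg (clo G S v x) T a := hT.dg_ge (mem_of_mem_erase ha)
    have h4 : (T.filter fun y => (clo G S v x).Adj a y) = T.erase a := by
      refine eq_of_subset_of_card_le ?_ ?_
      · intro y hy
        exact mem_erase.2 ⟨(mem_filter.1 hy).2.ne', (mem_filter.1 hy).1⟩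
      · rw [card_erase_of_mem (mem_of_mem_erase ha)]
        unfold dg at h3
        omega
    have h5 : b ∈ T.filter fun y => (clo G S v x).Adj a y := by
      rw [h4]
      exact mem_erase.2 ⟨hab.symm, mem_of_mem_erase hb⟩
    exact (clo_adj (ne_of_mem_erase ha) (ne_of_mem_erase hb)).1 (mem_filter.1 h5).2
  · right
    refine ⟨T.erase v, erase_subset_erase v hTS, hsub, by omega, by omega, ?_, ?_, ?_⟩
    · rw [hR]; exact hT
    · rw [hR]; exact hdf
    · have h1 := h.ih V (clo G S v x) T hT hTlt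
      rw [hdf] at h1
      have h2 : T.card - 1 = (T.erase v).card := by omega
      rw [h2] at h1
      linarith

end Pool.Agent.OW
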