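import Pool.Agent.Lib_helper92.OW.Cs
import Pool.Agent.Lib_helper28.OW.S4a
import Pool.Agent.Lib_helper51.OW.E6b

/-! Low vertices and cliques in a minimal counterexample. -/

set_option autoImplicit false
set_option linter.unusedSectionVars false
set_option linter.unusedVariables false

open scoped Classical
open Finset
open Pool.Agent.O2 (PC Cb CrOn pr ms dg nd reN pr_sum pr_symm pr_union_left pr_union_right dg_mono
  dg_union)
open Pool.Agent.O3 (con hit Clq)
open Pool.Agent.OW28 (NoCE Add1)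

namespace Pool.Agent.OW

variable {V : Type}

theorem df_sum (G : SimpleGraph V) (K : ℕ) (X : Finset V) :
    df G K X = ∑ v ∈ X, (((K : ℤ) + 1) - dg G X v) := by
  unfold df
  rw [pr_sum, sum_sub_distrib, sum_const, nsmul_eq_mul]
  push_cast
  ring

/-- a vertex of degree `K` -/
theorem exists_low {K : ℕ} {G : SimpleGraph V} {S : Finset V} (h : CrOn G S K)
    (hpos : 0 < df G K S) : ∃ u ∈ S, dg G S u = K := by
  by_contra hno
  push Not at hno
  rw [df_sum] at hpos
  have h1 : ∑ v ∈ S, (((K : ℤ) + 1) - dg G S v) ≤ 0 := by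
    apply sum_nonpos
    intro v hv
    have h2 := h.dg_ge hv
    have h3 := hno v hv
    have h4 : K + 1 ≤ dg G S v := by omega
    have h5 : ((K : ℤ) + 1) ≤ dg G S v := by exact_mod_cast h4
    linarith
  linarith

/-- a low vertex with two neighbours that are not adjacent -/
theorem low_pair {K : ℕ} {G : SimpleGraph V} {S : Finset V} (h : CrOn G S K)
    (hpos : 0 < df G K S) (hcard : K + 1 < S.card) :
    ∃ u ∈ S, dg G S u = K ∧ ∃ x ∈ S, ∃ y ∈ S, G.Adj u x ∧ G.Adj u y ∧ x ≠ y ∧ ¬ G.Adj x y := by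
  obtain ⟨u, hu, hd⟩ := exists_low h hpos
  refine ⟨u, hu, hd, ?_⟩
  by_contra hno
  push Not at hno
  set N := S.filter fun y => G.Adj u y with hN
  have huN : u ∉ N := fun h' => G.irrefl (mem_filter.1 h').2
  have hcl : Clq G (insert u N) := by
    intro a ha b hb hab
    rcases mem_insert.1 ha with rfl | ha <;> rcases mem_insert.1 hb with rfl | hb
    · exact absurd rfl hab
    · exact (mem_filter.1 hb).2
    · exact (mem_filter.1 ha).2.symm
    · exact hno a (mem_filter.1 ha).1 b (mem_filter.1 hb).1 (mem_filter.1 ha).2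
        (mem_filter.1 hb).2 hab
  have hsub : insert u N ⊆ S := insert_subset hu (filter_subset _ _)
  have h1 := Pool.Agent.O3.clq_bound h hsub hcl hcard
  rw [card_insert_of_notMem huN] at h1
  have h2 : N.card = K := hd
  omega

/-- the value of `df` on a clique with one more vertex -/
theorem df_clq_insert {K : ℕ} {G : SimpleGraph V} {T : Finset V} (hq : Clq G T)
    (hk : T.card = K) (hK : 1 ≤ K) {w : V} (hw : w ∉ T) :
    df G K (insert w T) = K + 1 + 2 * ((T.filter fun t => ¬ G.Adj w t).card : ℤ) := by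
  unfold df
  rw [pr_erase hw, card_insert_of_notMem hw, hk, pr_sum,
    sum_congr rfl fun t ht => Pool.Agent.OW28.clq_dg hq ht, sum_const, hk, smul_eq_mul]
  have h1 : dg G T w + (T.filter fun t => ¬ G.Adj w t).card = K := by
    unfold dg
    rw [card_filter_add_card_filter_not, hk]
  have h2 : ((dg G T w : ℕ) : ℤ) = K - ((T.filter fun t => ¬ G.Adj w t).card : ℤ) := by
    have : ((dg G T w : ℤ) + (T.filter fun t => ¬ G.Adj w t).card) = K := by exact_mod_cast h1
    linarith
  push_cast [Nat.cast_sub hK]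
  rw [h2]
  ring

/-- no complete graph minus an edge -/
theorem noCE_of_Y {K : ℕ} {β : ℕ → ℤ} {G : SimpleGraph V} {S : Finset V} (h : CrOn G S K)
    (hK : 1 ≤ K) (hcard : K + 1 < S.card) (hβ : β K = (K : ℤ) + 1)
    (hY : ∀ R ⊆ S, R ≠ S → K + 1 ≤ R.card → 4 ≤ Yy G K β R) : NoCE G S K := by
  intro T hT hq hk w hw hwT
  have hc : (insert w T).card = K + 1 := by rw [card_insert_of_notMem hwT, hk]
  have h1 := hY (insert w T) (insert_subset hw hT) (fun e => by rw [e] at hc; omega) hc.ge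
  unfold Yy at h1
  rw [df_clq_insert hq hk hK hwT, hc, Nat.add_sub_cancel, hβ] at h1
  have h2 : (2 : ℤ) ≤ ((T.filter fun t => ¬ G.Adj w t).card : ℤ) := by linarith
  exact_mod_cast h2

theorem add1_of_ae {K : ℕ} {G : SimpleGraph V} {S : Finset V} (hK : 0 < K)
    (h : AE G S K 1) : Add1 G S K := by
  intro R hR hne p hp q hq hpq _
  obtain ⟨ψ, h1, h2⟩ := h.pc hK hR hne (F := {(p, q)}) (by rw [card_singleton])
  exact ⟨ψ, h1, h2 p hp q hq hpq (mem_singleton_self _)⟩

/-- members of the new neighbourhood -/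
theorem mem_cn {G : SimpleGraph V} {S : Finset V} {v x a : V} :
    a ∈ cn G S v x ↔ a = x ∨ (a ≠ v ∧ a ∈ S ∧ G.Adj x a) := by
  unfold cn
  rw [mem_insert, mem_erase, mem_filter]

theorem cn_subS {G : SimpleGraph V} {S : Finset V} {v x : V} (hx : x ∈ S) : cn G S v x ⊆ S := by
  intro a ha
  rcases mem_cn.1 ha with rfl | h
  · exact hx
  · exact h.2.1

/-- c2: a low vertex of the clique `N[x] - v` is a twin of `x` -/
theorem twin_of_low {K : ℕ} {G : SimpleGraph V} {S : Finset V} (hK : 1 ≤ K) (h : CrOn G S K)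
    (ha : Add1 G S K) {x v y : V} (hx : x ∈ S) (hxd : dg G S x = K) (hv : v ∈ S)
    (hxv : G.Adj x v) (hq : Clq G (cn G S v x)) (hy : y ∈ S) (hxy : G.Adj x y) (hyv : y ≠ v)
    (hyd : dg G S y = K) : Tw G S x y := by
  have hT : cn G S v x ⊆ S := cn_subS hx
  have hk : (cn G S v x).card = K := (cn_card hv hxv).trans hxd
  have hxT : x ∈ cn G S v x := mem_cn.2 (Or.inl rfl)
  have hyT : y ∈ cn G S v x := mem_cn.2 (Or.inr ⟨hyv, hy, hxy⟩)
  have hvT : v ∉ cn G S v x := by
    intro h'
    rcases mem_cn.1 h' with h' | h'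
    · exact hxv.ne h'.symm
    · exact h'.1 rfl
  obtain ⟨w, hw, hadj⟩ := Pool.Agent.OW28.common_nbr hK h ha hT hq hk ⟨x, hxT, hxd⟩
  have hxw := hadj x hxT hxd
  have hwv : w = v := by
    by_contra hne
    exact (mem_sdiff.1 hw).2 (mem_cn.2 (Or.inr ⟨hne, (mem_sdiff.1 hw).1, hxw⟩))
  subst hwv
  have hyw := hadj y hyT hyd
  obtain ⟨z, hz, hyz, hzu⟩ := Pool.Agent.OW28.out_one hT hq hk hK hyT hyd
  have hzw : w = z := hzu w hv hyw hvT
  refine ⟨hxy, fun c hc hcx hcy => ?_⟩
  constructor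
  · intro hxc
    by_cases hcw : c = w
    · rw [hcw]; exact hyw
    · exact hq y hyT c (mem_cn.2 (Or.inr ⟨hcw, hc, hxc⟩)) (Ne.symm hcy)
  · intro hyc
    by_cases hcT : c ∈ cn G S w x
    · exact hq x hxT c hcT (Ne.symm hcx)
    · have := hzu c hc hyc hcT
      rw [this, ← hzw]
      exact hxv

/-- c3: `N[x] - v` and `N[x] - v'` are not both cliques -/
theorem not_two_clq {K : ℕ} {G : SimpleGraph V} {S : Finset V} (h : CrOn G S K)
    (hce : NoCE G S K) {x v v' : V} (hx : x ∈ S) (hxd : dg G S x = K) (hv : v ∈ S)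
    (hv' : v' ∈ S) (hne : v ≠ v') (hxv : G.Adj x v) (hxv' : G.Adj x v')
    (hq : Clq G (cn G S v x)) (hq' : Clq G (cn G S v' x)) : False := by
  have hT : cn G S v x ⊆ S := cn_subS hx
  have hk : (cn G S v x).card = K := (cn_card hv hxv).trans hxd
  have hvT : v ∉ cn G S v x := by
    intro h'
    rcases mem_cn.1 h' with h' | h'
    · exact hxv.ne h'.symm
    · exact h'.1 rfl
  have h1 := hce _ hT hq hk v hv hvT
  have h2 : ((cn G S v x).filter fun t => ¬ G.Adj v t) ⊆ {v'} := by
    intro t ht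
    obtain ⟨ht1, ht2⟩ := mem_filter.1 ht
    rw [mem_singleton]
    by_contra hne'
    apply ht2
    have hvcn : v ∈ cn G S v' x := mem_cn.2 (Or.inr ⟨hne, hv, hxv⟩)
    rcases mem_cn.1 ht1 with rfl | ht3
    · exact hxv.symm
    · exact hq' v hvcn t (mem_cn.2 (Or.inr ⟨hne', ht3.2⟩)) ht3.1.symm
  have h3 := card_le_card h2
  rw [card_singleton] at h3
  omega

end Pool.Agent.OW
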