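import Pool.Agent.Lib_helper92.OW.Lp
import Pool.Agent.Lib_helper33.OW.NumF
import Pool.Agent.Lib_helper46.OW.S7
import Pool.Agent.Lib_helper51.OW.C2
import Pool.Agent.Lib_helper53.OW.C4n
import Pool.Agent.Lib_helper53.OW.Fin
import Pool.Agent.Lib_helper63.OW.P2

/-! Assembly: the residues of `|S| - 1` modulo `K`. -/

set_option autoImplicit false
set_option linter.unusedSectionVars false
set_option linter.unusedVariables false

open scoped Classical
open Finset
open Pool.Agent.O2 (PC Cb CrOn pr ms dg nd)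
open Pool.Agent.O3 (con hit Clq)
open Pool.Agent.OW28 (NoCE Add1)
open Pool.Agent.OW

namespace Pool.Agent.OW92

variable {V : Type} {K : ℕ}

theorem bt_self (hK : 7 ≤ K) : bt K K = (K : ℤ) + 1 := by
  unfold bt
  rw [Nat.div_self (by omega), Nat.mod_self, vt_zero]
  push_cast
  ring

theorem bt_pos (hK : 7 ≤ K) {m : ℕ} (hm : K ≤ m) : 1 ≤ bt K m := by
  unfold bt
  have h1 : 1 ≤ m / K := (Nat.one_le_div_iff (by omega)).2 hm
  have h2 : -1 ≤ vt K (m % K) := (pre_vt hK).lo _ (Nat.mod_lt _ (by omega))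
  have h3 : (1 : ℤ) ≤ ((m / K : ℕ) : ℤ) := by exact_mod_cast h1
  linarith

/-- `df` of a critical set is at most its number of vertices -/
theorem df_le_card {G : SimpleGraph V} {S : Finset V} (h : CrOn G S K) :
    df G K S ≤ S.card := by
  rw [df_sum]
  have h1 : ∑ v ∈ S, (((K : ℤ) + 1) - dg G S v) ≤ ∑ v ∈ S, (1 : ℤ) := by
    apply sum_le_sum
    intro v hv
    have h2 : (K : ℤ) ≤ dg G S v := by exact_mod_cast h.dg_ge hv
    linarith
  rw [sum_const, nsmul_eq_mul, mul_one] at h1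
  exact h1

section cex

variable {G : SimpleGraph V} {S : Finset V}

theorem card_gt (hK : 7 ≤ K) (h : Cex G S K (bt K)) : K + 1 < S.card := by
  have h1 := h.cr.card_ge
  rcases Nat.eq_or_lt_of_le h1 with h2 | h2
  · exfalso
    have h3 := h.big
    rw [← h2, Nat.add_sub_cancel, bt_self hK] at h3
    have h4 := df_le_card h.cr
    rw [← h2] at h4
    push_cast at h4
    linarith
  · exact h2

theorem df_pos (hK : 7 ≤ K) (h : Cex G S K (bt K)) : 0 < df G K S := by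
  have h1 := card_gt hK h
  have h2 := bt_pos hK (m := S.card - 1) (by omega)
  have h3 := h.big
  linarith

theorem Y_two (h : Cex G S K (bt K)) : 2 ≤ Yy G K (bt K) S := by
  have := h.big
  unfold Yy
  linarith

theorem Y_four (hK : 7 ≤ K) (h : Cex G S K (bt K)) :
    ∀ R ⊆ S, R ≠ S → K + 1 ≤ R.card → 4 ≤ Yy G K (bt K) R :=
  Y_ge_four (by omega) h.cr h.ih (fun m t s h1 h2 h3 => N_F1 hK m t s h1 h2 h3) (Y_two h)

theorem no_ce (hK : 7 ≤ K) (h : Cex G S K (bt K)) : NoCE G S K :=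
  noCE_of_Y h.cr (by omega) (card_gt hK h) (bt_self hK) (Y_four hK h)

theorem Lt_tab (hK : 7 ≤ K) (h : Cex G S K (bt K))
    (hr : (S.card - 1) % K = 0 ∨ (S.card - 1) % K = 1 ∨ (S.card - 1) % K + 2 = K ∨
      (S.card - 1) % K + 1 = K) :
    ∀ R ⊆ S, R ≠ S → K + 1 ≤ R.card → Lt K ((R.card - 1) % K) ≤ Yy G K (bt K) R :=
  Lt_le h.cr h.ih hK (Y_two h) hr (Y_four hK h)
    (fun m t s h1 h2 h3 => N_F1 hK m t s h1 h2 h3)
    (fun m s h1 h2 h3 h4 h5 => N_F4a hK _ m s h1 h2 h3.le h4 h5)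
    (fun m a s h0 h1 h2 _ h4 => N_F4b hK m a s h1 h2 h0 h4)
    (fun m s h0 h1 h2 h3 => N_F4c hK _ m s h1 h2 h3.le h0 hr)

theorem f3 (hK : 7 ≤ K) (N : ℕ) : ∀ m a s : ℕ, 2 ≤ s → s ≤ K → 1 ≤ a → K ≤ m → m + a < N →
    (K : ℤ) + 1 + bt K (m - 1) + bt K (a + s - 1) <
      bt K (m + a) + s * ((K : ℤ) + 2 - s) + Lt K ((m + a) % K) := by
  intro m a s h1 h2 _ h4 _
  have h5 := N_F3 hK m a s h1 h2 (by omega)
  have h6 : LL K ((m + a) % K) = Lt K ((m + a) % K) := rfl
  rw [h6] at h5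
  linarith

/-- the residues `0`, `1`, `K - 2` -/
theorem no_early (hK : 7 ≤ K) (h : Cex G S K (bt K))
    (hr : (S.card - 1) % K = 0 ∨ (S.card - 1) % K = 1 ∨ (S.card - 1) % K + 2 = K) : False := by
  obtain ⟨u, hu, hd, x, hx, y, hy, hux, huy, hne, hnad⟩ :=
    low_pair h.cr (df_pos hK h) (card_gt hK h)
  apply hnad
  have hr' : (S.card - 1) % K = 0 ∨ (S.card - 1) % K = 1 ∨ (S.card - 1) % K + 2 = K ∨
      (S.card - 1) % K + 1 = K := by omega
  refine no_pair h.cr h.ih (by omega) (Y_two h) (fun m t s h1 h2 h3 => N_F1 hK m t s h1 h2 h3)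
    ?_ (f3 hK _) (Lt_tab hK h hr') hu hd.le hx hy hux huy hne
  intro m s h1 h2 h3 h4
  exact N_F2 hK _ m s h1 h2 (by omega) h4.le hr' (by omega)

/-- the residues `2, ..., K - 3`: many edges can be added and `Y` is large -/
theorem mid (hK : 7 ≤ K) (h : Cex G S K (bt K)) (h2 : 2 ≤ (S.card - 1) % K)
    (h3 : (S.card - 1) % K + 3 ≤ K) :
    AE G S K (iR K ((S.card - 1) % K)) ∧
      ∀ R ⊆ S, R ≠ S → K + 1 ≤ R.card → (K : ℤ) - 1 ≤ Yy G K (bt K) R := by
  have h1 := boot' (i0 := iR K ((S.card - 1) % K)) (L := 2 * (iR K ((S.card - 1) % K) : ℤ))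
    (by omega) h.cr h.ih (fun m t s h1 h2 h3 => N_F1 hK m t s h1 h2 h3)
    (Pool.Agent.OW33.f5 hK _ h2 h3) le_rfl (by linarith) (Pool.Agent.OW33.two_iR_le hK _)
    (Y_two h)
  refine ⟨h1.1, fun R hR hne hc => ?_⟩
  have h4 := h1.2 R hR hne hc
  have h5 := iR_ge K ((S.card - 1) % K) hK
  linarith

/-- the structure of the low vertices in the residues `2, ..., K - 3` -/
theorem lw (hK : 7 ≤ K) (h : Cex G S K (bt K)) (h2 : 2 ≤ (S.card - 1) % K)
    (h3 : (S.card - 1) % K + 3 ≤ K)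
    (hflex : (S.card - 1) % K + 3 = K → ∀ x ∈ S, dg G S x = K → ∀ v ∈ S, G.Adj x v →
      ∀ R, CFlex G S K (bt K) (iR K ((S.card - 1) % K)) v x R → Clq G (cn G S v x))
    (hc5 : ∀ x ∈ S, dg G S x = K → ∀ v ∈ S, dg G S v = K → G.Adj x v →
      (tws G S x).card = 0 → (tws G S v).card = 0 →
      Clq G (cn G S v x) → Clq G (cn G S x v) →
      ∀ y ∈ S, G.Adj x y → y ≠ v → K + 2 ≤ dg G S y) : Lw G S K := by
  obtain ⟨hA, hY⟩ := mid hK h h2 h3
  have hi := Pool.Agent.OW33.two_iR_le hK ((S.card - 1) % K)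
  have hi' := iR_ge K ((S.card - 1) % K) hK
  have hA1 : AE G S K 1 := hA.mono (by omega)
  have hadd : Add1 G S K := add1_of_ae (by omega) hA1
  have hce := no_ce hK h
  have hcard := card_gt hK h
  refine ⟨h.cr, ?_, ?_, ?_, ?_, ?_, hc5⟩
  · intro x hx hd v hv hxv htw hdv hord
    by_cases h4 : (S.card - 1) % K + 3 = K
    · rcases c1_flex h (by omega) hA hi (fun m t s h1 h2 h3 => N_F1 hK m t s h1 h2 h3)
        (Pool.Agent.OW33.f6k hK _ h4) (Pool.Agent.OW33.f6' hK _ h4) hx hd hv hxv htw hdv hord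
        with h5 | ⟨R, h5⟩
      · exact h5
      · exact hflex h4 x hx hd v hv hxv R h5
    · exact c1_mid h (by omega) hA hi (fun m t s h1 h2 h3 => N_F1 hK m t s h1 h2 h3)
        (Pool.Agent.OW33.f6 hK _ h2 (by omega)) hx hd hv hxv htw hdv hord
  · intro x hx hd v hv hxv hq y hy hxy hyv hyd
    exact twin_of_low (by omega) h.cr hadd hx hd hv hxv hq hy hxy hyv hyd
  · intro x hx hd v hv hxv v' hv' hxv' hne hq hq'
    exact not_two_clq h.cr hce hx hd hv hv' hne hxv hxv' hq hq'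
  · exact Pool.Agent.OW53.c4_bt hK h hcard (Y_four hK h)
      (fun x hx hd v hv hxv v' hv' hxv' hne hq hq' =>
        not_two_clq h.cr hce hx hd hv hv' hne hxv hxv' hq hq') h3
  · exact Pool.Agent.OW53.c4'_bt h.cr hcard
      (fun x hx hd v hv hxv v' hv' hxv' hne hq hq' =>
        not_two_clq h.cr hce hx hd hv hv' hne hxv hxv' hq hq')

end cex

/-- the theorem for `K` colours, from the open blocks -/
theorem claim_step (hK : 7 ≤ K)
    (hM : K % 2 = 0 → 10 ≤ K → ∀ (V' : Type) (G' : SimpleGraph V') (S' : Finset V'),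
      CrOn G' S' (K - 1) → df G' (K - 1) S' ≤ bt (K - 1) (S'.card - 1))
    (hlast : ∀ (V : Type) (G : SimpleGraph V) (S : Finset V), Cex G S K (bt K) →
      (S.card - 1) % K = K - 1 → False)
    (hflex : ∀ (V : Type) (G : SimpleGraph V) (S : Finset V), Cex G S K (bt K) →
      (S.card - 1) % K + 3 = K → ∀ x ∈ S, dg G S x = K → ∀ v ∈ S, G.Adj x v →
      ∀ R, CFlex G S K (bt K) (iR K ((S.card - 1) % K)) v x R → Clq G (cn G S v x))
    (hc5 : ∀ (V : Type) (G : SimpleGraph V) (S : Finset V), Cex G S K (bt K) →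
      2 ≤ (S.card - 1) % K → (S.card - 1) % K + 3 ≤ K →
      ∀ x ∈ S, dg G S x = K → ∀ v ∈ S, dg G S v = K → G.Adj x v →
      (tws G S x).card = 0 → (tws G S v).card = 0 →
      Clq G (cn G S v x) → Clq G (cn G S x v) →
      ∀ y ∈ S, G.Adj x y → y ≠ v → K + 2 ≤ dg G S y) :
    ∀ (V : Type) (G : SimpleGraph V) (S : Finset V), CrOn G S K →
      df G K S ≤ bt K (S.card - 1) := by
  by_contra hbad
  obtain ⟨V, G, S, h⟩ := exists_cex (N_F0 hK) hbad
  have hlt : (S.card - 1) % K < K := Nat.mod_lt _ (by omega)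
  by_cases h1 : (S.card - 1) % K = 0 ∨ (S.card - 1) % K = 1 ∨ (S.card - 1) % K + 2 = K
  · exact no_early hK h h1
  · by_cases h2 : (S.card - 1) % K = K - 1
    · exact hlast V G S h h2
    · have h3 : 2 ≤ (S.card - 1) % K := by omega
      have h4 : (S.card - 1) % K + 3 ≤ K := by omega
      exact s7 hK h (lw hK h h3 h4 (hflex V G S h) (hc5 V G S h h3 h4)) h3 h4 hM

end Pool.Agent.OW92
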