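import Pool.Agent.Lib_helper92.OW.Asm
import Pool.Agent.Lib_helper25.OW.Bt
import Pool.Agent.Lib_helper28.OW.S4e
import Pool.Agent.Lib_helper46.OW.C5

/-! The lower bound for all critical sets. -/

set_option autoImplicit false
set_option linter.unusedSectionVars false
set_option linter.unusedVariables false

open scoped Classical
open Finset
open Pool.Agent.O2 (PC Cb CrOn pr ms dg nd)
open Pool.Agent.O3 (con hit Clq)
open Pool.Agent.OW28 (NoCE Add1)
open Pool.Agent.OW

namespace Pool.Agent.OW92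

variable {V : Type} {K : ℕ} {G : SimpleGraph V} {S : Finset V}

theorem last_block (hK : 7 ≤ K) (h : Cex G S K (bt K)) (hr : (S.card - 1) % K = K - 1) :
    False := by
  have hA : AE G S K 1 := by
    apply ae_of_Y h.cr h.ih
    intro X hX hne hc
    have h1 := Y_four hK h X hX hne hc
    push_cast
    linarith
  exact Pool.Agent.OW28.r_last hK h.cr h.ih (Y_two h) hr hA (Y_four hK h)
    (Pool.Agent.OW.S5.T5_bt hK)

theorem flex_block (hK : 7 ≤ K) (h : Cex G S K (bt K)) (hr : (S.card - 1) % K + 3 = K) :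
    ∀ x ∈ S, dg G S x = K → ∀ v ∈ S, G.Adj x v →
      ∀ R, CFlex G S K (bt K) (iR K ((S.card - 1) % K)) v x R → Clq G (cn G S v x) := by
  intro x hx hd v hv hxv R hR
  obtain ⟨hA, hY⟩ := mid hK h (by omega) hr.le
  have hi := Pool.Agent.OW33.two_iR_le hK ((S.card - 1) % K)
  have hi' := iR_ge K ((S.card - 1) % K) hK
  have hadd : Add1 G S K := add1_of_ae (by omega) (hA.mono (by omega))
  refine Pool.Agent.OW.S5.flex2_bt h hK hA hi hadd (no_ce hK h) ?_ (by omega) hx hd hv hxv hR
  intro R' hR' hne hc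
  have h1 := hY R' hR' hne hc
  have h2 : (7 : ℤ) ≤ K := by exact_mod_cast hK
  linarith

theorem c5_block (hK : 7 ≤ K) (h : Cex G S K (bt K)) (h2 : 2 ≤ (S.card - 1) % K)
    (h3 : (S.card - 1) % K + 3 ≤ K) :
    ∀ x ∈ S, dg G S x = K → ∀ v ∈ S, dg G S v = K → G.Adj x v →
      (tws G S x).card = 0 → (tws G S v).card = 0 →
      Clq G (cn G S v x) → Clq G (cn G S x v) →
      ∀ y ∈ S, G.Adj x y → y ≠ v → K + 2 ≤ dg G S y := by
  obtain ⟨-, hY⟩ := mid hK h h2 h3
  refine Pool.Agent.OW46.c5_of h.cr h.ih (by omega) ?_ ?_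
  · intro R hR hne hc
    have h1 := hY R hR hne hc
    have h4 : (7 : ℤ) ≤ K := by exact_mod_cast hK
    linarith
  · intro x hx hd v hv hxv v' hv' hxv' hne hq hq'
    exact not_two_clq h.cr (no_ce hK h) hx hd hv hv' hne hxv hxv' hq hq'

theorem claim_odd (hK : 7 ≤ K) (ho : K % 2 = 1) :
    ∀ (V : Type) (G : SimpleGraph V) (S : Finset V), CrOn G S K →
      df G K S ≤ bt K (S.card - 1) :=
  claim_step hK (fun h => by omega) (fun V G S h hr => last_block hK h hr)
    (fun V G S h hr => flex_block hK h hr) (fun V G S h h2 h3 => c5_block hK h h2 h3)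

/-- the lower bound for all critical sets with `K ≥ 8` colours -/
theorem claim_all (hK : 7 ≤ K) :
    ∀ (V : Type) (G : SimpleGraph V) (S : Finset V), CrOn G S K →
      df G K S ≤ bt K (S.card - 1) :=
  claim_step hK (fun he h10 => claim_odd (K := K - 1) (by omega) (by omega))
    (fun V G S h hr => last_block hK h hr)
    (fun V G S h hr => flex_block hK h hr) (fun V G S h h2 h3 => c5_block hK h h2 h3)

end Pool.Agent.OW92
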